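import Pool.Agent.Helper72.TH.BF

/-!
# Adjoints of the multiplication by complete functions (rows SA, SG, CAU)
-/

namespace TH72

open MvPolynomial Finset TH

noncomputable section

variable {K : Type*} [Field K]

/-- `F ↦ F[X + c w]` -/
def phi (c : ℕ → K) : Sy K →ₐ[K] Polynomial (Sy K) :=
  aeval (fun j => Polynomial.C (X j) + Polynomial.C (C (c j)) * Polynomial.X ^ (j + 1))

theorem phi_X (c : ℕ → K) (j : ℕ) :
    phi c (X j) = Polynomial.C (X j) + Polynomial.C (C (c j)) * Polynomial.X ^ (j + 1) := by
  simp [phi]

theorem phi_C (c : ℕ → K) (a : K) : phi c (C a) = Polynomial.C (C a) := by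
  have h := (phi c).commutes a
  rw [MvPolynomial.algebraMap_eq] at h
  rw [h]
  rfl

theorem phi_mul_X (c : ℕ → K) (p : Sy K) (n a : ℕ) :
    (phi c (p * X n)).coeff a = (phi c p).coeff a * X n +
      (if n + 1 ≤ a then C (c n) * (phi c p).coeff (a - (n + 1)) else 0) := by
  rw [map_mul, phi_X, mul_add, Polynomial.coeff_add, Polynomial.coeff_mul_C, ← mul_assoc,
    Polynomial.coeff_mul_X_pow', mul_comm (phi c p) (Polynomial.C (C (c n))),
    Polynomial.coeff_C_mul]

theorem phi_zero (c : ℕ → K) (p : Sy K) : (phi c p).coeff 0 = p := by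
  induction p using MvPolynomial.induction_on with
  | C a => rw [phi_C, Polynomial.coeff_C_zero]
  | add p r hp hr => rw [map_add, Polynomial.coeff_add, hp, hr]
  | mul_X p n hp =>
    rw [phi_mul_X, hp, if_neg (by omega), add_zero]

/-- the derivative with respect to the parameter -/
theorem phi_deriv (c : ℕ → K) (G : Sy K) (a : ℕ) :
    ((a : Sy K) + 1) * (phi c G).coeff (a + 1) =
      ∑ i ∈ range (a + 1), ((i : Sy K) + 1) * C (c i) * (phi c (pderiv i G)).coeff (a - i) := by
  induction G using MvPolynomial.induction_on generalizing a with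
  | C b =>
    rw [phi_C, Polynomial.coeff_C_succ, mul_zero]
    symm
    refine Finset.sum_eq_zero fun i _ => ?_
    rw [pderiv_C, map_zero, Polynomial.coeff_zero, mul_zero]
  | add p r hp hr =>
    rw [map_add, Polynomial.coeff_add, mul_add, hp, hr, ← Finset.sum_add_distrib]
    refine Finset.sum_congr rfl fun i _ => ?_
    rw [map_add, map_add, Polynomial.coeff_add, mul_add]
  | mul_X p n hp =>
    have h1 : ∀ i, (phi c (pderiv i (p * X n))).coeff (a - i) =
        (phi c (pderiv i p)).coeff (a - i) * X n +
        (if n + 1 ≤ a - i then C (c n) * (phi c (pderiv i p)).coeff (a - i - (n + 1)) else 0) +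
        (if i = n then (phi c p).coeff (a - i) else 0) := by
      intro i
      rw [pderiv_mul, map_add, Polynomial.coeff_add, phi_mul_X]
      congr 1
      by_cases hin : i = n
      · subst hin
        rw [pderiv_X_self, mul_one, if_pos rfl]
      · rw [pderiv_X_of_ne (Ne.symm hin), mul_zero, map_zero, Polynomial.coeff_zero, if_neg hin]
    simp only [h1]
    simp only [mul_add, Finset.sum_add_distrib]
    have h2 : ∑ i ∈ range (a + 1), ((i : Sy K) + 1) * C (c i) *
        ((phi c (pderiv i p)).coeff (a - i) * X n) =
        ((a : Sy K) + 1) * (phi c p).coeff (a + 1) * X n := by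
      rw [hp a, Finset.sum_mul]
      refine Finset.sum_congr rfl fun i _ => ?_
      ring
    rw [h2, phi_mul_X, mul_add]
    have h3 : ∑ i ∈ range (a + 1), ((i : Sy K) + 1) * C (c i) *
        (if i = n then (phi c p).coeff (a - i) else 0) =
        if n ≤ a then ((n : Sy K) + 1) * C (c n) * (phi c p).coeff (a - n) else 0 := by
      by_cases hna : n ≤ a
      · rw [if_pos hna, Finset.sum_eq_single n]
        · rw [if_pos rfl]
        · intro i _ hi
          rw [if_neg hi, mul_zero]
        · intro h
          exact absurd (Finset.mem_range.mpr (by omega)) h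
      · rw [if_neg hna]
        refine Finset.sum_eq_zero fun i hi => ?_
        rw [Finset.mem_range] at hi
        rw [if_neg (by omega), mul_zero]
    have h4 : ∑ i ∈ range (a + 1), ((i : Sy K) + 1) * C (c i) *
        (if n + 1 ≤ a - i then C (c n) * (phi c (pderiv i p)).coeff (a - i - (n + 1)) else 0) =
        if n ≤ a then ((a : Sy K) - (n : Sy K)) * C (c n) * (phi c p).coeff (a - n) else 0 := by
      by_cases hna : n ≤ a
      · rw [if_pos hna]
        obtain ⟨d, rfl⟩ := Nat.exists_eq_add_of_le hna
        cases d with
        | zero =>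
          rw [Finset.sum_eq_zero]
          · push_cast
            ring
          · intro i _
            rw [if_neg (by omega), mul_zero]
        | succ d =>
          have h5 := hp d
          have h6 : ∑ i ∈ range (n + (d + 1) + 1), ((i : Sy K) + 1) * C (c i) *
              (if n + 1 ≤ n + (d + 1) - i then C (c n) *
                (phi c (pderiv i p)).coeff (n + (d + 1) - i - (n + 1)) else 0) =
              ∑ i ∈ range (d + 1), ((i : Sy K) + 1) * C (c i) *
              (C (c n) * (phi c (pderiv i p)).coeff (d - i)) := by
            symm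
            have hsub : range (d + 1) ⊆ range (n + (d + 1) + 1) :=
              Finset.range_subset_range.mpr (by omega)
            rw [← Finset.sum_subset hsub]
            · refine Finset.sum_congr rfl fun i hi => ?_
              rw [Finset.mem_range] at hi
              rw [if_pos (by omega)]
              congr 3
              omega
            · intro i _ hi
              rw [Finset.mem_range] at hi
              rw [if_neg (by omega), mul_zero]
          rw [h6]
          have h7 : ∑ i ∈ range (d + 1), ((i : Sy K) + 1) * C (c i) *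
              (C (c n) * (phi c (pderiv i p)).coeff (d - i)) =
              C (c n) * ∑ i ∈ range (d + 1), ((i : Sy K) + 1) * C (c i) *
              (phi c (pderiv i p)).coeff (d - i) := by
            rw [Finset.mul_sum]
            refine Finset.sum_congr rfl fun i _ => ?_
            ring
          rw [h7, ← h5]
          have h8 : n + (d + 1) - n = d + 1 := by omega
          rw [h8]
          push_cast
          ring
      · rw [if_neg hna]
        refine Finset.sum_eq_zero fun i _ => ?_
        rw [if_neg (by omega), mul_zero]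
    rw [h3, h4]
    by_cases hna : n ≤ a
    · rw [if_pos (by omega), if_pos hna, if_pos hna]
      have h8 : a + 1 - (n + 1) = a - n := by omega
      rw [h8]
      ring
    · rw [if_neg (by omega), if_neg hna, if_neg hna]
      ring

/-- multiplication by `h_i[α X]` is adjoint to the coefficient of `w^i` in `F[X + c w]` -/
theorem adj_hc [CharZero K] (w c α : ℕ → K) (h : ∀ j : ℕ, α j * w j = ((j : K) + 1) * c j)
    (i : ℕ) : ∀ F G : Sy K, bf w (hc (fun j => C (α j) * (X j : Sy K)) i * F) G =
      bf w F ((phi c G).coeff i) := by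
  induction i using Nat.strong_induction_on with
  | _ i ih =>
    intro F G
    cases i with
    | zero => rw [hc_zero, one_mul, phi_zero]
    | succ i =>
      have h0 : ((i : K) + 1) ≠ 0 := by exact_mod_cast Nat.succ_ne_zero i
      have hcast : ∀ (m : ℕ) (P : Sy K), ((m : Sy K) + 1) * P = ((m : K) + 1) • P := by
        intro m P
        rw [MvPolynomial.smul_eq_C_mul]
        simp
      have hl : ((i : K) + 1) * bf w (hc (fun j => C (α j) * (X j : Sy K)) (i + 1) * F) G =
          ∑ j ∈ range (i + 1), (α j * w j) *
            bf w (hc (fun j => C (α j) * (X j : Sy K)) (i - j) * F) (pderiv j G) := by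
        have h1 : ((i : K) + 1) • (hc (fun j => C (α j) * (X j : Sy K)) (i + 1) * F) =
            ∑ j ∈ range (i + 1), α j •
              (X j * (hc (fun j => C (α j) * (X j : Sy K)) (i - j) * F)) := by
          rw [← hcast, ← mul_assoc, hc_rec_mul, Finset.sum_mul]
          refine Finset.sum_congr rfl fun j _ => ?_
          rw [MvPolynomial.smul_eq_C_mul]
          ring
        have h2 := congrArg (fun P => bf w P G) h1
        simp only [map_smul, LinearMap.smul_apply, map_sum, LinearMap.sum_apply,
          smul_eq_mul] at h2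
        rw [h2]
        refine Finset.sum_congr rfl fun j _ => ?_
        rw [bf_X_mul]
        ring
      have hr : ((i : K) + 1) * bf w F ((phi c G).coeff (i + 1)) =
          ∑ j ∈ range (i + 1), (((j : K) + 1) * c j) *
            bf w F ((phi c (pderiv j G)).coeff (i - j)) := by
        have h1 : ((i : K) + 1) • (phi c G).coeff (i + 1) =
            ∑ j ∈ range (i + 1), (((j : K) + 1) * c j) • (phi c (pderiv j G)).coeff (i - j) := by
          rw [← hcast, phi_deriv]
          refine Finset.sum_congr rfl fun j _ => ?_
          rw [mul_assoc, hcast, ← MvPolynomial.smul_eq_C_mul, smul_smul]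
        have h2 := congrArg (fun P => bf w F P) h1
        simp only [map_smul, map_sum, smul_eq_mul] at h2
        exact h2
      refine mul_left_cancel₀ h0 ?_
      rw [hl, hr]
      refine Finset.sum_congr rfl fun j _ => ?_
      rw [h j, ih (i - j) (by omega)]

theorem tauA_eq_phi (q t : K) : tauA q t = phi (Mj q t) := rfl

theorem sgA_eq_phi : (sgA : Sy K →ₐ[K] Polynomial (Sy K)) = phi (fun _ => -1) := by
  refine MvPolynomial.algHom_ext fun j => ?_
  rw [phi_X, sgA, aeval_X, sub_eq_add_neg]
  simp only [map_neg, map_one]
  ring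

/-- row SG -/
theorem st_SG (K : Type*) [Field K] [CharZero K] : ST_SG K := by
  intro a F G
  have h1 : eh K a = hc (fun j => C (-1 : K) * (X j : Sy K)) a := by
    rw [eh]
    congr 1
    funext j
    simp
  rw [h1, sgA_eq_phi]
  exact adj_hc (fun j => ((j : K) + 1)) (fun _ => -1) (fun _ => -1) (fun j => by ring) a F G

theorem ee_adj [CharZero K] (q t : K) (i : ℕ) (F G : Sy K) :
    bf (fun j => (-1) ^ j * ((j : K) + 1) * Mj q t j) (ee K i * F) G =
      bf (fun j => (-1) ^ j * ((j : K) + 1) * Mj q t j) F (tau q t i G) := by
  have h1 : ee K i = hc (fun j => C ((-1 : K) ^ j) * (X j : Sy K)) i := by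
    rw [ee]
    congr 1
    funext j
    simp
  rw [h1]
  refine adj_hc _ (Mj q t) (fun j => (-1) ^ j) (fun j => ?_) i F G
  have h2 : ((-1 : K) ^ j) * ((-1) ^ j) = 1 := by rw [← mul_pow, neg_mul_neg, one_mul, one_pow]
  linear_combination (((j : K) + 1) * Mj q t j) * h2

theorem eh_eq_ee [CharZero K] (i : ℕ) : eh K i = (-1 : K) ^ i • ee K i := by
  rw [eh, hc_sign, ee, MvPolynomial.smul_eq_C_mul]
  simp

/-- row SA -/
theorem st_SA (K : Type*) [Field K] [CharZero K] : ST_SA K := by
  intro q t F G
  set w : ℕ → K := fun j => (-1) ^ j * ((j : K) + 1) * Mj q t j with hw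
  set N := max (tauA q t F).natDegree (tauA q t G).natDegree + 1 with hN
  have hF : (tauA q t F).natDegree < N := by
    have := le_max_left (tauA q t F).natDegree (tauA q t G).natDegree
    omega
  have hG : (tauA q t G).natDegree < N := by
    have := le_max_right (tauA q t F).natDegree (tauA q t G).natDegree
    omega
  have key : ∀ (P Q : Sy K), (tauA q t P).natDegree < N →
      bf w (Dk q t 0 P) Q = ∑ i ∈ range N, (-1 : K) ^ i * bf w (tau q t i P) (tau q t i Q) := by
    intro P Q hP
    rw [Dk_apply q t 0 P N hP, map_sum, LinearMap.sum_apply]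
    refine Finset.sum_congr rfl fun i _ => ?_
    rw [zero_add, ehz_natCast, eh_eq_ee, smul_mul_assoc, map_smul, LinearMap.smul_apply,
      smul_eq_mul, hw, ee_adj]
  rw [key F G hF, bf_symm w F, key G F hG]
  refine Finset.sum_congr rfl fun i _ => ?_
  rw [bf_symm w (tau q t i F)]

/-- evaluation through `phi` -/
theorem coeff_zero_phi (c : ℕ → K) (s : ℕ →₀ ℕ) (a : K) (m : ℕ) :
    MvPolynomial.coeff 0 ((phi c (monomial s a)).coeff m) =
      if Finsupp.weight (fun j : ℕ => j + 1) s = m then a * s.prod (fun j e => c j ^ e) else 0 := by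
  -- apply the constant coefficient to the polynomial
  have h1 : ∀ G : Sy K, Polynomial.map (constantCoeff : Sy K →+* K) (phi c G) =
      aeval (fun j => Polynomial.C (c j) * Polynomial.X ^ (j + 1)) G := by
    intro G
    induction G using MvPolynomial.induction_on with
    | C b =>
      rw [phi_C, Polynomial.map_C, constantCoeff_C]
      simp
    | add p r hp hr => rw [map_add, Polynomial.map_add, hp, hr, map_add]
    | mul_X p n hp =>
      rw [map_mul, Polynomial.map_mul, hp, map_mul, phi_X, aeval_X]
      simp
  have h2 : MvPolynomial.coeff 0 ((phi c (monomial s a)).coeff m) =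
      (Polynomial.map (constantCoeff : Sy K →+* K) (phi c (monomial s a))).coeff m := by
    rw [Polynomial.coeff_map]
    rfl
  rw [h2, h1, aeval_monomial]
  have h3 : (s.prod fun j e => (Polynomial.C (c j) * Polynomial.X ^ (j + 1)) ^ e) =
      Polynomial.C (s.prod (fun j e => c j ^ e)) *
        Polynomial.X ^ (Finsupp.weight (fun j : ℕ => j + 1) s) := by
    rw [Finsupp.weight_apply, Finsupp.prod, Finsupp.prod, Finsupp.sum, map_prod,
      ← Finset.prod_pow_eq_pow_sum, ← Finset.prod_mul_distrib]
    refine Finset.prod_congr rfl fun j _ => ?_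
    rw [mul_pow, ← pow_mul, map_pow, smul_eq_mul, mul_comm (j + 1)]
  rw [h3]
  have h4 : (algebraMap K (Polynomial K)) a = Polynomial.C a := rfl
  rw [h4, ← mul_assoc, ← Polynomial.C_mul, Polynomial.coeff_C_mul_X_pow]
  by_cases hm : Finsupp.weight (fun j : ℕ => j + 1) s = m
  · rw [if_pos hm, if_pos hm.symm]
  · rw [if_neg hm, if_neg (Ne.symm hm)]

/-- row CAU -/
theorem st_CAU (K : Type*) [Field K] [CharZero K] : ST_CAU K := by
  intro c m F hF
  have h1 := adj_hc (fun j => ((j : K) + 1)) c c (fun j => by ring) m 1 F
  rw [mul_one] at h1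
  rw [hall, bf_symm, h1]
  have h2 : ∀ G : Sy K, bf (fun j => ((j : K) + 1)) 1 G = MvPolynomial.coeff 0 G := by
    intro G
    have h3 : (1 : Sy K) = monomial 0 1 := rfl
    rw [h3, bf_monomial, one_mul]
    have h4 : wt (fun j => ((j : K) + 1)) 0 = 1 := by
      unfold wt
      exact Finsupp.prod_zero_index
    rw [h4, one_mul]
  rw [h2]
  conv_lhs => rw [F.as_sum]
  rw [map_sum, Polynomial.finsetSum_coeff, MvPolynomial.coeff_sum]
  have h5 : ev c F = ∑ s ∈ F.support, F.coeff s * s.prod (fun j e => c j ^ e) := by
    conv_lhs => rw [F.as_sum]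
    rw [map_sum]
    refine Finset.sum_congr rfl fun s _ => ?_
    rw [ev, aeval_monomial]
    rfl
  rw [h5]
  refine Finset.sum_congr rfl fun s hs => ?_
  rw [coeff_zero_phi, if_pos (hF (mem_support_iff.mp hs))]

end

end TH72
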