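import Pool.Agent.Helper86.TH.Stmts

/-!
# The bilinear form on the ring of symmetric functions (row BF)
-/

namespace TH72

open MvPolynomial Finset TH

noncomputable section

variable {K : Type*} [Field K]

theorem bf_monomial (w : ℕ → K) (s : ℕ →₀ ℕ) (a : K) (G : Sy K) :
    bf w (monomial s a) G = a * (wt w s * G.coeff s) := by
  have h1 : (monomial s a : Sy K) = a • (basisMonomials ℕ K) s := by
    rw [coe_basisMonomials, smul_monomial, smul_eq_mul, mul_one]
  rw [h1, map_smul, bf, Module.Basis.constr_basis]
  rfl

theorem bf_mono_mono (w : ℕ → K) (s s' : ℕ →₀ ℕ) (a b : K) :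
    bf w (monomial s a) (monomial s' b) = if s = s' then a * b * wt w s else 0 := by
  rw [bf_monomial, coeff_monomial]
  by_cases h : s = s'
  · rw [if_pos h, if_pos h.symm]
    ring
  · rw [if_neg h, if_neg (Ne.symm h), mul_zero, mul_zero]

theorem bf_symm (w : ℕ → K) (F G : Sy K) : bf w F G = bf w G F := by
  induction F using MvPolynomial.induction_on' with
  | monomial s a =>
    induction G using MvPolynomial.induction_on' with
    | monomial s' b =>
      rw [bf_mono_mono, bf_mono_mono]
      by_cases h : s = s'
      · subst h
        rw [if_pos rfl, if_pos rfl]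
        ring
      · rw [if_neg h, if_neg (Ne.symm h)]
    | add p r hp hr => rw [map_add, map_add, LinearMap.add_apply, hp, hr]
  | add p r hp hr => rw [map_add, map_add, LinearMap.add_apply, hp, hr]

theorem wt_succ (w : ℕ → K) (s : ℕ →₀ ℕ) (j : ℕ) :
    wt w (Finsupp.single j 1 + s) = w j * ((s j + 1 : ℕ) : K) * wt w s := by
  classical
  unfold wt
  have h1 : ∀ r : ℕ →₀ ℕ, r.support ⊆ insert j s.support →
      r.prod (fun j a => (a.factorial : K) * w j ^ a) =
        ∏ i ∈ insert j s.support, ((r i).factorial : K) * w i ^ (r i) := by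
    intro r hr
    refine Finsupp.prod_of_support_subset r hr _ fun i _ => ?_
    rw [Nat.factorial_zero, Nat.cast_one, pow_zero, mul_one]
  have h2 : (Finsupp.single j 1 + s : ℕ →₀ ℕ) j = s j + 1 := by
    rw [Finsupp.add_apply, Finsupp.single_eq_same, add_comm]
  have h4 : ∀ x, x ≠ j → (Finsupp.single j 1 + s : ℕ →₀ ℕ) x = s x := by
    intro x hx
    rw [Finsupp.add_apply, Finsupp.single_eq_of_ne hx, zero_add]
  rw [h1 s (Finset.subset_insert _ _), h1 (Finsupp.single j 1 + s)]
  · rw [← Finset.mul_prod_erase _ _ (Finset.mem_insert_self j s.support),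
      ← Finset.mul_prod_erase _ _ (Finset.mem_insert_self j s.support)]
    have h3 : ∏ x ∈ (insert j s.support).erase j,
        (((Finsupp.single j 1 + s : ℕ →₀ ℕ) x).factorial : K) *
          w x ^ ((Finsupp.single j 1 + s : ℕ →₀ ℕ) x) =
        ∏ x ∈ (insert j s.support).erase j, ((s x).factorial : K) * w x ^ (s x) := by
      refine Finset.prod_congr rfl fun x hx => ?_
      rw [h4 x (Finset.ne_of_mem_erase hx)]
    rw [h2, h3, Nat.factorial_succ, Nat.cast_mul, pow_succ]
    ring
  · intro i hi
    rw [Finset.mem_insert]
    by_cases hij : i = j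
    · exact Or.inl hij
    · right
      rw [Finsupp.mem_support_iff] at hi ⊢
      rw [h4 i hij] at hi
      exact hi

theorem bf_X_mul (w : ℕ → K) (j : ℕ) (F G : Sy K) :
    bf w (X j * F) G = w j * bf w F (pderiv j G) := by
  induction F using MvPolynomial.induction_on' with
  | monomial s a =>
    induction G using MvPolynomial.induction_on' with
    | monomial s' b =>
      have h1 : (X j : Sy K) * monomial s a = monomial (Finsupp.single j 1 + s) a := by
        rw [X, monomial_mul, one_mul]
      rw [h1, pderiv_monomial, bf_mono_mono, bf_mono_mono]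
      by_cases h0 : s' j = 0
      · rw [if_neg]
        · rw [h0]
          split_ifs <;> simp
        · intro h
          have h2 := DFunLike.congr_fun h j
          rw [Finsupp.add_apply, Finsupp.single_eq_same, h0] at h2
          omega
      · have hiff : Finsupp.single j 1 + s = s' ↔ s = s' - Finsupp.single j 1 := by
          constructor
          · intro h
            rw [← h, add_tsub_cancel_left]
          · intro h
            rw [h]
            ext i
            rw [Finsupp.add_apply, Finsupp.tsub_apply]
            by_cases hij : i = j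
            · subst hij
              rw [Finsupp.single_eq_same]
              omega
            · rw [Finsupp.single_eq_of_ne hij]
              omega
        by_cases h : Finsupp.single j 1 + s = s'
        · rw [if_pos h, if_pos (hiff.mp h), wt_succ]
          have h2 : s' j = s j + 1 := by
            rw [← h, Finsupp.add_apply, Finsupp.single_eq_same, add_comm]
          rw [h2]
          ring
        · rw [if_neg h, if_neg (fun h' => h (hiff.mpr h')), mul_zero]
    | add p r hp hr =>
      rw [map_add, map_add, map_add, hp, hr]
      ring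
  | add p r hp hr =>
    rw [mul_add, map_add, map_add, LinearMap.add_apply, LinearMap.add_apply, hp, hr]
    ring

theorem bf_sum (w : ℕ → K) (F G : Sy K) :
    bf w F G = ∑ s ∈ F.support, F.coeff s * (wt w s * G.coeff s) := by
  conv_lhs => rw [F.as_sum]
  rw [map_sum, LinearMap.sum_apply]
  exact Finset.sum_congr rfl fun s _ => bf_monomial w s _ G

theorem wt_ne_zero [CharZero K] {w : ℕ → K} (hw : ∀ j, w j ≠ 0) (s : ℕ →₀ ℕ) : wt w s ≠ 0 := by
  unfold wt
  refine Finset.prod_ne_zero_iff.mpr fun i _ => ?_
  exact mul_ne_zero (Nat.cast_ne_zero.mpr (Nat.factorial_ne_zero _)) (pow_ne_zero _ (hw i))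

theorem st_BF (K : Type*) [Field K] [CharZero K] : ST_BF K := by
  intro w
  refine ⟨bf_symm w, bf_X_mul w, ?_, ?_⟩
  · intro hw F hF
    ext s
    have h1 := hF (monomial s 1)
    rw [bf_symm, bf_monomial, one_mul] at h1
    rw [coeff_zero]
    exact (mul_eq_zero.mp h1).resolve_left (wt_ne_zero hw s)
  · intro m n F G hmn hF hG
    rw [bf_sum]
    refine Finset.sum_eq_zero fun s hs => ?_
    have h1 : F.coeff s ≠ 0 := mem_support_iff.mp hs
    have h2 := hF h1
    by_cases h3 : G.coeff s = 0
    · rw [h3, mul_zero, mul_zero]
    · exact absurd (h2.symm.trans (hG h3)) hmn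

end

end TH72
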