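import Pool.Agent.Helper72.TH.ADJ

/-!
# Evaluation at `1 - u` as a Hall scalar product (rows EPU, PS, ED, TH)
-/

namespace TH72

open MvPolynomial Finset TH

noncomputable section

/-- comparison of coefficients -/
theorem coeff_eq_of_eval {K : Type*} [Field K] [CharZero K] {N N' : ℕ} {a c : ℕ → K}
    (h : ∀ v : K, ∑ i ∈ range N, v ^ i * a i = ∑ i ∈ range N', v ^ i * c i) (i : ℕ) :
    (if i < N then a i else 0) = if i < N' then c i else 0 := by
  have h1 : ∀ (M : ℕ) (e : ℕ → K) (v : K), Polynomial.eval v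
      (∑ i ∈ range M, Polynomial.C (e i) * Polynomial.X ^ i) = ∑ i ∈ range M, v ^ i * e i := by
    intro M e v
    rw [Polynomial.eval_finsetSum]
    refine Finset.sum_congr rfl fun i _ => ?_
    rw [Polynomial.eval_mul, Polynomial.eval_C, Polynomial.eval_pow, Polynomial.eval_X, mul_comm]
  have h2 : ∑ i ∈ range N, Polynomial.C (a i) * Polynomial.X ^ i =
      ∑ i ∈ range N', Polynomial.C (c i) * Polynomial.X ^ i := by
    refine Polynomial.funext fun v => ?_
    rw [h1, h1, h v]
  have h3 : ∀ (M : ℕ) (e : ℕ → K), (∑ i ∈ range M, Polynomial.C (e i) *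
      (Polynomial.X : Polynomial K) ^ i).coeff i = if i < M then e i else 0 := by
    intro M e
    rw [Polynomial.finsetSum_coeff]
    simp only [Polynomial.coeff_C_mul_X_pow]
    rw [Finset.sum_ite_eq]
    simp only [Finset.mem_range]
  rw [← h3, ← h3, h2]

/-- row EPU -/
theorem st_EPU (K : Type*) [Field K] [CharZero K] : ST_EPU K := by
  intro u m F hF
  have h1 := st_CAU K (fun j => 1 - u ^ (j + 1)) m F hF
  rw [ep, ← h1]
  have h2 : hc (fun j => (C (1 - u ^ (j + 1)) * X j : Sy K)) m =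
      ∑ d ∈ range (m + 1), (-u) ^ (m - d) • (hh K d * ee K (m - d)) := by
    have h3 : (fun j => (C (1 - u ^ (j + 1)) * X j : Sy K)) =
        fun j => (X j : Sy K) + (C u) ^ (j + 1) * (-(X j)) := by
      funext j
      rw [map_sub, map_one, map_pow]
      ring
    rw [h3, hc_add_range]
    refine Finset.sum_congr rfl fun d _ => ?_
    rw [hc_scale]
    have h4 : hc (fun j => -(X j : Sy K)) (m - d) = (-1 : K) ^ (m - d) • ee K (m - d) :=
      eh_eq_ee (m - d)
    rw [h4, MvPolynomial.smul_eq_C_mul, MvPolynomial.smul_eq_C_mul, hh]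
    have h5 : (C ((-u) ^ (m - d)) : Sy K) = C u ^ (m - d) * C ((-1 : K) ^ (m - d)) := by
      rw [← map_pow, ← map_mul, ← mul_pow, mul_neg_one]
    rw [h5]
    ring
  rw [h2, map_sum]
  refine Finset.sum_congr rfl fun d _ => ?_
  rw [map_smul, smul_eq_mul]

/-- row PS -/
theorem st_PS (K : Type*) [Field K] [CharZero K] : ST_PS K := by
  intro q t hg b hb μ ν hne
  set w : ℕ → K := fun j => (-1) ^ j * ((j : K) + 1) * Mj q t j with hw
  have hM := hg.Mj_ne
  have hw0 : ∀ j, w j ≠ 0 := by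
    intro j
    rw [hw]
    exact mul_ne_zero (mul_ne_zero (pow_ne_zero _ (neg_ne_zero.mpr one_ne_zero))
      (by exact_mod_cast Nat.succ_ne_zero j)) (hM j)
  have horth : ∀ κ l : Par, κ ≠ l → bf w (b κ) (b l) = 0 := by
    intro κ l hκl
    have h1 := st_SA K q t (b κ) (b l)
    have h2 : (1 - Mj q t 0 * Ps q t κ 0) * bf w (b κ) (b l) =
        (1 - Mj q t 0 * Ps q t l 0) * bf w (b κ) (b l) := by
      rw [hb.eig, hb.eig, map_smul, map_smul, LinearMap.smul_apply, smul_eq_mul,
        smul_eq_mul] at h1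
      exact h1
    have h3 : Mj q t 0 * (Ps q t l 0 - Ps q t κ 0) * bf w (b κ) (b l) = 0 := by
      linear_combination h2
    rcases mul_eq_zero.mp h3 with h4 | h4
    · exfalso
      rcases mul_eq_zero.mp h4 with h5 | h5
      · exact hM 0 h5
      · exact hκl (hg.inj κ l (sub_eq_zero.mp h5).symm)
    · exact h4
  have hexp : ∀ (κ : Par) (F : Sy K), bf w (b κ) F = b.repr F κ * bf w (b κ) (b κ) := by
    intro κ F
    have h1 : (bf w (b κ) : Sy K →ₗ[K] K) = (bf w (b κ) (b κ)) • b.coord κ := by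
      refine b.ext fun l => ?_
      rw [LinearMap.smul_apply, Module.Basis.coord_apply, Module.Basis.repr_self, smul_eq_mul]
      by_cases h : l = κ
      · subst h
        rw [Finsupp.single_eq_same, mul_one]
      · rw [Finsupp.single_eq_of_ne (Ne.symm h), mul_zero, horth κ l (Ne.symm h)]
    have h2 := congrArg (fun g => g F) h1
    simp only [LinearMap.smul_apply, Module.Basis.coord_apply, smul_eq_mul] at h2
    rw [h2, mul_comm]
  have hdiag : ∀ κ : Par, bf w (b κ) (b κ) ≠ 0 := by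
    intro κ h0
    refine b.ne_zero κ ((st_BF K w).2.2.1 hw0 (b κ) fun G => ?_)
    rw [hexp, h0, mul_zero]
  have h1 : bf w (X 0 * b ν) (b μ) ≠ 0 := by
    rw [bf_X_mul]
    have h2 : bf w (b ν) (pderiv 0 (b μ)) = b.repr (pd (b μ)) ν * bf w (b ν) (b ν) := by
      rw [← hexp]
      rfl
    rw [h2]
    exact mul_ne_zero (hw0 0) (mul_ne_zero hne (hdiag ν))
  obtain ⟨d, hd, -, -⟩ := hb.pieri ν
  rw [hd, map_sum, LinearMap.sum_apply] at h1
  obtain ⟨i, hi, hi0⟩ := Finset.exists_ne_zero_of_sum_ne_zero h1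
  have h3 : up ν i = μ := by
    by_contra h4
    rw [map_smul, LinearMap.smul_apply, horth _ _ h4, smul_zero] at hi0
    exact hi0 rfl
  have h5 := mem_ads.mp hi
  refine ⟨i, mem_rms.mpr ?_, ?_⟩
  · rw [← h3]
    exact rmb_up h5
  · rw [← h3, dn_up h5]

/-- the finite expansion of `dg (Nu v)` -/
theorem dg_Nu {K : Type*} [Field K] [CharZero K] (hNU : ST_NU K) (q t : K)
    (b : Module.Basis Par K (Sy K)) (F : Sy K) :
    ∃ N₀ : ℕ, ∀ N, N₀ ≤ N → ∀ v : K,
      dg b (Nu q t v) F = ∑ l ∈ range N, v ^ l • Nn q t b l F := by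
  classical
  refine ⟨(b.repr F).support.sup (fun ν => TH.card ν + 1), fun N hN v => ?_⟩
  have h1 : ∀ ν ∈ (b.repr F).support, dg b (Nu q t v) (b ν) =
      ∑ l ∈ range N, v ^ l • Nn q t b l (b ν) := by
    intro ν hν
    have h2 : TH.card ν + 1 ≤ N := (Finset.le_sup (f := fun ν => TH.card ν + 1) hν).trans hN
    rw [dg_apply_basis, (hNU q t ν).1 v, Finset.sum_smul]
    have hsub : range (TH.card ν + 1) ⊆ range N := Finset.range_subset_range.mpr h2
    rw [← Finset.sum_subset hsub]
    · refine Finset.sum_congr rfl fun l _ => ?_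
      rw [Nn, dg_apply_basis, smul_smul]
    · intro l _ hl
      rw [Finset.mem_range, not_lt] at hl
      rw [Nn, dg_apply_basis, (hNU q t ν).2 l (by omega), zero_smul, smul_zero]
  have h3 : F = ∑ ν ∈ (b.repr F).support, (b.repr F ν) • b ν := by
    conv_lhs => rw [← b.linearCombination_repr F, Finsupp.linearCombination_apply, Finsupp.sum]
  have h4 : ∀ g : Module.End K (Sy K), g F = ∑ ν ∈ (b.repr F).support, (b.repr F ν) • g (b ν) := by
    intro g
    conv_lhs => rw [h3]
    rw [map_sum]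
    exact Finset.sum_congr rfl fun ν _ => by rw [map_smul]
  rw [h4 (dg b (Nu q t v))]
  simp only [h4 (Nn q t b _), Finset.smul_sum]
  rw [Finset.sum_comm]
  refine Finset.sum_congr rfl fun ν hν => ?_
  rw [h1 ν hν, Finset.smul_sum]
  refine Finset.sum_congr rfl fun l _ => ?_
  rw [smul_comm]

theorem Nn_eq_En {K : Type*} [Field K] [CharZero K] (q t : K) (b : Module.Basis Par K (Sy K))
    (l : ℕ) : Nn q t b l = (-1 : K) ^ l • En q t b l := by
  rw [Nn, En, dg_smul]
  congr 1
  funext μ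
  rw [hc_sign]

/-- row ED -/
theorem st_ED (K : Type*) [Field K] [CharZero K] (hF2 : ST_F2 K) (hNU : ST_NU K) : ST_ED K := by
  intro q t hg b hb m d F hF hd
  obtain ⟨N₀, hN₀⟩ := dg_Nu hNU q t b F
  set N := N₀ + (m + 1) with hNdef
  have key : ∀ v : K, ∑ l ∈ range N, v ^ l * ep 0 (Nn q t b l F) =
      ∑ l ∈ range (m + 1), v ^ l * ((-1) ^ l * hall F (hh K (m - l) * ee K l)) := by
    intro v
    have h1 := hF2 q t hg b hb v F
    rw [hN₀ N (by omega) v, map_sum] at h1
    simp only [map_smul, smul_eq_mul] at h1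
    rw [← h1, st_EPU K v m F hF, ← Finset.sum_range_reflect]
    refine Finset.sum_congr rfl fun l hl => ?_
    rw [Finset.mem_range] at hl
    have h2 : m + 1 - 1 - l = m - l := by omega
    have h3 : m - (m - l) = l := by omega
    rw [h2, h3, neg_pow]
    ring
  have h5 := coeff_eq_of_eval key (m - d)
  rw [if_pos (by omega), if_pos (by omega), Nn_eq_En, LinearMap.smul_apply, map_smul,
    smul_eq_mul] at h5
  have h6 : m - (m - d) = d := by omega
  rw [h6] at h5
  exact (mul_left_cancel₀ (pow_ne_zero _ (neg_ne_zero.mpr one_ne_zero)) h5).symm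

end

end TH72
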