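import Pool.Agent.Helper72.TH.EPU

/-!
# The Theta operators as a Hall scalar product (row TH)
-/

namespace TH72

open MvPolynomial Finset TH

noncomputable section

/-- the expansion of a homogeneous element -/
theorem repr_of_WH {K : Type*} [Field K] [CharZero K] {q t : K} {b : Module.Basis Par K (Sy K)}
    (hb : IsE q t b) {m : ℕ} {F : Sy K} (hF : WH m F) (ν : Par) (hν : TH.card ν ≠ m) :
    b.repr F ν = 0 := by
  classical
  set w : ℕ → ℕ := fun j => j + 1 with hw
  -- the component of degree `m`
  have hcomp : ∀ κ : Par, weightedHomogeneousComponent w m (b κ) =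
      if TH.card κ = m then b κ else 0 := by
    intro κ
    by_cases h : TH.card κ = m
    · rw [if_pos h]
      exact IsWeightedHomogeneous.weightedHomogeneousComponent_same (h ▸ hb.hom κ)
    · rw [if_neg h]
      exact IsWeightedHomogeneous.weightedHomogeneousComponent_ne m (hb.hom κ) (Ne.symm h)
  have h1 : weightedHomogeneousComponent w m F = F :=
    IsWeightedHomogeneous.weightedHomogeneousComponent_same hF
  have h3 : F = ∑ κ ∈ (b.repr F).support, (b.repr F κ) • b κ := by
    conv_lhs => rw [← b.linearCombination_repr F, Finsupp.linearCombination_apply, Finsupp.sum]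
  have h4 : F = ∑ κ ∈ (b.repr F).support, (b.repr F κ) • (if TH.card κ = m then b κ else 0) := by
    conv_lhs => rw [← h1, h3]
    rw [map_sum]
    refine Finset.sum_congr rfl fun κ _ => ?_
    rw [map_smul, hcomp]
  conv_lhs => rw [h4]
  rw [map_sum, Finsupp.finsetSum_apply]
  refine Finset.sum_eq_zero fun κ _ => ?_
  by_cases h : TH.card κ = m
  · rw [if_pos h, map_smul, Module.Basis.repr_self, Finsupp.smul_apply, Finsupp.single_eq_of_ne,
      smul_zero]
    intro h5
    exact hν (h5 ▸ h)
  · rw [if_neg h, smul_zero, map_zero, Finsupp.zero_apply]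

theorem WH_of_repr {K : Type*} [Field K] [CharZero K] {q t : K} {b : Module.Basis Par K (Sy K)}
    (hb : IsE q t b) {m : ℕ} {F : Sy K} (hF : ∀ ν : Par, TH.card ν ≠ m → b.repr F ν = 0) :
    WH m F := by
  have h3 : F = ∑ κ ∈ (b.repr F).support, (b.repr F κ) • b κ := by
    conv_lhs => rw [← b.linearCombination_repr F, Finsupp.linearCombination_apply, Finsupp.sum]
  have h4 : F ∈ weightedHomogeneousSubmodule K (fun j : ℕ => j + 1) m := by
    rw [h3]
    refine Submodule.sum_mem _ fun κ hκ => Submodule.smul_mem _ _ ?_
    have h5 : TH.card κ = m := by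
      by_contra h6
      exact (Finsupp.mem_support_iff.mp hκ) (hF κ h6)
    have h7 := hb.hom κ
    rw [h5] at h7
    exact h7
  exact h4

theorem WH_dg {K : Type*} [Field K] [CharZero K] {q t : K} {b : Module.Basis Par K (Sy K)}
    (hb : IsE q t b) {m : ℕ} {F : Sy K} (hF : WH m F) (f : Par → K) : WH m (dg b f F) := by
  refine WH_of_repr hb fun ν hν => ?_
  rw [dg_repr, repr_of_WH hb hF ν hν, mul_zero]

theorem WH_hc {K : Type*} [Field K] [CharZero K] (α : ℕ → K) (n : ℕ) :
    WH n (hc (fun j => (C (α j) * X j : Sy K)) n) := by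
  induction n using Nat.strong_induction_on with
  | _ n ih =>
    cases n with
    | zero =>
      rw [hc_zero]
      exact isWeightedHomogeneous_one K _
    | succ n =>
      rw [hc_succ']
      have h1 : ∑ i ∈ range (n + 1), (C (α i) * X i : Sy K) *
          hc (fun j => (C (α j) * X j : Sy K)) (n - i) ∈
          weightedHomogeneousSubmodule K (fun j : ℕ => j + 1) (n + 1) := by
        refine Submodule.sum_mem _ fun i hi => ?_
        rw [Finset.mem_range] at hi
        have h2 : IsWeightedHomogeneous (fun j : ℕ => j + 1) (C (α i) * X i : Sy K) (i + 1) := by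
          have h3 := (isWeightedHomogeneous_C (fun j : ℕ => j + 1) (α i)).mul
            (isWeightedHomogeneous_X K (fun j : ℕ => j + 1) i)
          rw [zero_add] at h3
          exact h3
        have h4 := h2.mul (ih (n - i) (by omega))
        have h5 : i + 1 + (n - i) = n + 1 := by omega
        rw [h5] at h4
        exact h4
      have h6 : (((n : ℚ) + 1)⁻¹ • ∑ i ∈ range (n + 1), (C (α i) * X i : Sy K) *
          hc (fun j => (C (α j) * X j : Sy K)) (n - i)) =
          (((n : K) + 1)⁻¹) • ∑ i ∈ range (n + 1), (C (α i) * X i : Sy K) *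
          hc (fun j => (C (α j) * X j : Sy K)) (n - i) := by
        rw [Algebra.smul_def, MvPolynomial.smul_eq_C_mul]
        congr 1
        have h7 : (algebraMap ℚ (Sy K)) (((n : ℚ) + 1)⁻¹) =
            C ((algebraMap ℚ K) (((n : ℚ) + 1)⁻¹)) := by
          rw [IsScalarTower.algebraMap_apply ℚ K (Sy K), MvPolynomial.algebraMap_eq]
        rw [h7]
        congr 1
        simp
      rw [h6]
      exact Submodule.smul_mem _ _ h1

theorem WH_est {K : Type*} [Field K] [CharZero K] (q t : K) (k : ℕ) : WH k (est q t k) := by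
  have h1 : est q t k = hc (fun j => (C ((-1 : K) ^ j * (Mj q t j)⁻¹) * X j : Sy K)) k := by
    rw [est]
    congr 1
    funext j
    rw [map_mul, map_pow, map_neg, map_one]
    ring
  rw [h1]
  exact WH_hc _ k

/-- row TH -/
theorem st_TH (K : Type*) [Field K] [CharZero K] (hW7 : ST_W7 K) : ST_TH K := by
  intro q t hg b hb k m d F hm hF hd
  set G := dg b (Pim q t) (est q t k * dg b (fun μ => (Pim q t μ)⁻¹) F) with hG
  have hE := hb.toIsE
  have hGW : WH (m + k) G := by
    refine WH_dg hE ?_ _
    have h1 := (WH_est q t k).mul (WH_dg hE hF (fun μ => (Pim q t μ)⁻¹))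
    rw [add_comm m k]
    exact h1
  have hHW : WH m (Hn q t b k F) := WH_dg hE hF _
  have key : ∀ v : K, ∑ l ∈ range (m + k + 1), v ^ l * hall G (hh K (m + k - l) * ee K l) =
      ∑ l ∈ range (m + k + 1), v ^ l * (if k ≤ l then
        hall (Hn q t b k F) (hh K (m + k - l) * ee K (l - k)) else 0) := by
    intro v
    have h1 := hW7 q t hg b hb (-v) k m F hm hF
    rw [st_EPU K (-v) (m + k) G hGW, st_EPU K (-v) m _ hHW, neg_neg] at h1
    rw [← Finset.sum_range_reflect, Finset.mul_sum] at h1
    have h2 : ∑ j ∈ range (m + k + 1), v ^ (m + k - (m + k + 1 - 1 - j)) *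
        hall G (hh K (m + k + 1 - 1 - j) * ee K (m + k - (m + k + 1 - 1 - j))) =
        ∑ l ∈ range (m + k + 1), v ^ l * hall G (hh K (m + k - l) * ee K l) := by
      refine Finset.sum_congr rfl fun l hl => ?_
      rw [Finset.mem_range] at hl
      have e1 : m + k + 1 - 1 - l = m + k - l := by omega
      have e2 : m + k - (m + k - l) = l := by omega
      rw [e1, e2]
    rw [h2] at h1
    rw [h1, ← Finset.sum_range_reflect]
    have h3 : ∑ l ∈ range (m + k + 1), v ^ l * (if k ≤ l then
        hall (Hn q t b k F) (hh K (m + k - l) * ee K (l - k)) else 0) =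
        ∑ l ∈ Finset.Ico k (m + k + 1), v ^ l *
        hall (Hn q t b k F) (hh K (m + k - l) * ee K (l - k)) := by
      have hsub : Finset.Ico k (m + k + 1) ⊆ range (m + k + 1) := by
        intro l hl
        rw [Finset.mem_Ico] at hl
        exact Finset.mem_range.mpr hl.2
      symm
      rw [← Finset.sum_subset hsub]
      · refine Finset.sum_congr rfl fun l hl => ?_
        rw [Finset.mem_Ico] at hl
        rw [if_pos hl.1]
      · intro l hl hl'
        rw [Finset.mem_range] at hl
        rw [Finset.mem_Ico, not_and_or] at hl'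
        rw [if_neg (by omega), mul_zero]
    rw [h3, Finset.sum_Ico_eq_sum_range]
    have h4 : m + k + 1 - k = m + 1 := by omega
    rw [h4]
    refine Finset.sum_congr rfl fun l hl => ?_
    rw [Finset.mem_range] at hl
    have e1 : m + 1 - 1 - l = m - l := by omega
    have e2 : m - (m - l) = l := by omega
    have e3 : m + k - (k + l) = m - l := by omega
    have e4 : k + l - k = l := by omega
    rw [e1, e2, e3, e4, pow_add]
    ring
  have h5 := coeff_eq_of_eval key (m + k - d)
  rw [if_pos (by omega), if_pos (by omega)] at h5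
  have e1 : m + k - (m + k - d) = d := by omega
  rw [e1] at h5
  rw [h5]
  by_cases hdm : d ≤ m
  · rw [if_pos (by omega), if_pos hdm]
    have e2 : m + k - d - k = m - d := by omega
    rw [e2]
  · rw [if_neg (by omega), if_neg hdm]

end

end TH72
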